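import Mathlib
import Pool.Agent.W905.ATG.Final

/-!
# MP_1b6412_co, Q1: answer NO (in ZFC)

Every Aronszajn tree graph has an `(ℵ₀, ℵ₁)`-graph or some graph `G_{ω₁}(S)`, with `S` stationary,
as a minor.  All definitions used in the statement are in `Pool.Agent.W905.ATG.Defs`.
-/

namespace Pool.Agent.Results.MP_1b6412_co.NoThirdKind

open Pool.Agent.W905.ATG

universe u

theorem result (T : Type u) [PartialOrder T] (hT : IsAronszajnTree T) (G : SimpleGraph T)
    (hG : IsTreeGraph G) :
    (∃ (W : Type u) (H : SimpleGraph W), IsAlephGraph H ∧ IsMinor H G) ∨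
      HasStationaryMinor G :=
  main hT hG

end Pool.Agent.Results.MP_1b6412_co.NoThirdKind
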